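import Pool.Agent.H34.GA.Targets1

/-!
Row SPX of the board ga: one value on the critical line.
-/

set_option autoImplicit false

namespace Pool.Agent.H69.GA

open MeasureTheory Pool.Agent.H34.GM Pool.Agent.H34.GZ Pool.Agent.H34.GU Pool.Agent.H34.GA

/-- forms of positive norm do not vanish identically -/
theorem spx_nz {m q : ℕ} [NeZero q] {T : ℕ → Finset (ZM m)} {D : Set (V m)}
    (hS : SysZ m q T D) {F : Mat m → VN m q → ℂ} (h : nU D F ≠ 0) : NZ F := by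
  by_contra hc
  apply h
  have hF : ∀ g x, g.det ≠ 0 → F g x = 0 := by
    intro g x hg
    by_contra h1
    exact hc ⟨g, x, hg, h1⟩
  unfold nU
  refine Finset.sum_eq_zero fun x _ => ?_
  refine setIntegral_eq_zero_of_forall_eq_zero fun z hz => ?_
  have h1 : (mt z).det ≠ 0 := by
    intro h2
    have h3 := (hS.dom.shell z hz).1
    unfold aN at h3
    rw [h2, abs_zero, Real.zero_rpow] at h3
    · linarith
    · have h4 : (m : ℝ) ≠ 0 := by
        have := hS.one_le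
        exact_mod_cast (by omega : m ≠ 0)
      exact one_div_ne_zero h4
  rw [hF _ x h1]
  simp

/-- the two halves, one after the other -/
theorem spx_two {a b C M κ ε e : ℝ} {X A1 A2 I : ENNReal} (hκ : 1 ≤ κ) (hC : 0 ≤ C)
    (hM : 0 ≤ M) (ha : a = C * M * κ ^ ε) (hb : b = κ ^ e) (he : e ≤ ε)
    (hX : X ≤ A1 + ENNReal.ofReal b * A2) (h1 : A1 ≤ ENNReal.ofReal a * I)
    (h2 : A2 ≤ ENNReal.ofReal a * I) (hε : 0 ≤ ε) :
    X ≤ ENNReal.ofReal (2 * C * M * κ ^ (2 * ε)) * I := by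
  have hκ0 : 0 < κ := by linarith
  have hke : 1 ≤ κ ^ ε := Real.one_le_rpow hκ hε
  have hbe : b ≤ κ ^ ε := by
    rw [hb]
    exact Real.rpow_le_rpow_of_exponent_le hκ he
  have hb0 : 0 ≤ b := by
    rw [hb]
    exact Real.rpow_nonneg hκ0.le _
  have ha0 : 0 ≤ a := by
    rw [ha]
    positivity
  have h3 : κ ^ (2 * ε) = κ ^ ε * κ ^ ε := by
    rw [← Real.rpow_add hκ0]
    congr 1
    ring
  have h4 : a ≤ C * M * κ ^ (2 * ε) := by
    rw [ha, h3]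
    apply mul_le_mul_of_nonneg_left _ (by positivity)
    nlinarith
  have h5 : b * a ≤ C * M * κ ^ (2 * ε) := by
    rw [h3]
    calc b * a ≤ κ ^ ε * a := mul_le_mul_of_nonneg_right hbe ha0
      _ = C * M * (κ ^ ε * κ ^ ε) := by rw [ha]; ring
  have h6 : (0 : ℝ) ≤ C * M * κ ^ (2 * ε) := ha0.trans h4
  calc X ≤ A1 + ENNReal.ofReal b * A2 := hX
    _ ≤ ENNReal.ofReal a * I + ENNReal.ofReal b * (ENNReal.ofReal a * I) :=
        add_le_add h1 (mul_le_mul' le_rfl h2)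
    _ = ENNReal.ofReal a * I + ENNReal.ofReal (b * a) * I := by
        rw [← mul_assoc, ← ENNReal.ofReal_mul hb0]
    _ ≤ ENNReal.ofReal (C * M * κ ^ (2 * ε)) * I + ENNReal.ofReal (C * M * κ ^ (2 * ε)) * I :=
        add_le_add (mul_le_mul' (ENNReal.ofReal_le_ofReal h4) le_rfl)
          (mul_le_mul' (ENNReal.ofReal_le_ofReal h5) le_rfl)
    _ = ENNReal.ofReal (2 * C * M * κ ^ (2 * ε)) * I := by
        rw [← add_mul, ← ENNReal.ofReal_add h6 h6]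
        congr 2
        ring

theorem pf_SPX (hPRF : T_PRF) (hFR : T_FR1) (hABW : T_ABW) (hDYU : T_DYU) (hPHB : T_PHB)
    (hCNR : T_CNR) (hCFA : T_CFA) (hCFB : Pool.Agent.H34.GA.T_CFB) (hCIF : T_CIF)
    (hMLZ : T_MLZ) (hFEA : T_FEA) (hSMA : Pool.Agent.H34.GA.T_SMA) (hLMA : T_LMA)
    (hTHK : T_THK) (hSPB : T_SPB) (hCIR : T_CIR) : T_SPX := by
  obtain ⟨χ, hχ⟩ := hPRF
  intro m hm ε J hε hJ
  have hmR : (1 : ℝ) ≤ m := by exact_mod_cast hm
  have hm0 : (0 : ℝ) < m := by linarith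
  have hε1 : 0 < ε / 2 := by linarith
  obtain ⟨K, CA, hKb, hKm, hCA, hA⟩ := hABW m hm (ε / 2) J hε1 hJ
  obtain ⟨C0, hC0, hY⟩ := hDYU m hm
  obtain ⟨CP, cP, AP, hCP, hcP, hP⟩ := hPHB χ hχ m hm (ε / 2) K hε1
  obtain ⟨CN, hCN, hN⟩ := hCNR m hm
  have hCN0 : 0 < CN := by linarith
  set e0 : ℝ := min 1 (ε / 2 / (2 * m)) with he0
  have he0p : 0 < e0 := lt_min one_pos (by positivity)
  have he01 : e0 ≤ 1 := min_le_left _ _
  have he02 : e0 ≤ ε / 2 / (2 * m) := min_le_right _ _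
  set Q : ℝ := (4 * ((Fintype.card (Fin m × Fin m) : ℝ) + 1) / e0) ^
    Fintype.card (Fin m × Fin m) with hQ
  have hQ0 : 0 < Q := by positivity
  refine ⟨2 * (CA * C0) * CP * cP⁻¹ * Q, min (1 / (4 * CN)) (2 * cP / 5), AP + AP,
    by positivity, lt_min (by positivity) (by positivity), ?_⟩
  intro N _ T D hS F lam mu P hF hn hLip L hL hLW t δ htP hδ0 hδ2 hδP
  have hP1 : 1 ≤ P := by
    have := abs_nonneg t
    linarith
  have hδN : δ * P ≤ 1 / (4 * CN) := hδP.trans (min_le_left _ _)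
  have hδc : δ * P ≤ 2 * cP / 5 := hδP.trans (min_le_right _ _)
  have hNZ : NZ F := spx_nz hS (by rw [hn]; exact one_ne_zero)
  obtain ⟨H, xv, hFr⟩ := hFR m N hm hS.two_le
  have hc1 : Cof m (c1 D F) 1 := by
    have h1 := hCFA m N T D hS F lam hF.toHecA
    rw [hn] at h1
    exact h1
  have hc2 : Cof m (c2 D H xv F) 1 := by
    have h1 := hCFB m N T D hS H xv hFr F lam hF.toHecA
    rw [hn] at h1
    exact h1
  obtain ⟨C1, hC1, hLam⟩ := hLMA m N T D hS F lam hF.toHecA hNZ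
  obtain ⟨κ, hκd⟩ : ∃ κ : ℝ, κ = kp m N := ⟨_, rfl⟩
  have hκ : (1 : ℝ) ≤ κ := by
    have h1 : 1 ≤ N := by have := hS.two_le; omega
    rw [hκd]
    unfold kp
    exact Real.one_le_rpow (by exact_mod_cast h1) (by positivity)
  obtain ⟨hΦ, hΦ0, hΦW, hΦL⟩ := hP δ hδ0 hδ2
  obtain ⟨Φ, hΦd⟩ : ∃ Φ : Mat m → ℂ, Φ = dD^[m] (bi m χ δ) := ⟨_, rfl⟩
  rw [← hΦd] at hΦ hΦ0 hΦW hΦL
  have hAd : Adm F (Pool.Agent.H34.GA.cf Φ) := Or.inr hΦ0
  have hW1 := (hΦW _ hc1).1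
  have hW2 := (hΦW _ hc2).2
  obtain ⟨M, hMd⟩ : ∃ M : ℝ, M = CP * δ⁻¹ ^ AP := ⟨_, rfl⟩
  have hM : 0 ≤ M := by
    rw [hMd]
    positivity
  rw [← hMd] at hW1 hW2
  have hWc := hSMA m N T D hS F lam hF.toCusB hNZ Φ hΦ hAd
  have hFE := hFEA m N T D hS H xv hFr F lam hF.toCusB hNZ Φ hΦ hAd
  rw [← hκd] at hFE ⊢
  have hK1 := hTHK m K (uu Φ (c1 D F)) lam M (ε / 2) hm hKm hW1 ⟨C1, hLam⟩
  have hK2 := hTHK m K (uu (Pool.Agent.H34.GA.cf Φ) (c2 D H xv F)) lam M (ε / 2) hm hKm hW2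
    ⟨C1, hLam⟩
  obtain ⟨I, hI⟩ : ∃ I : ENNReal, I = ∫⁻ y in Set.Ioi (1 : ℝ), ENNReal.ofReal
      (‖DF m 1 lam y‖ * y ^ (-((m : ℝ) / 2) - 1) * wK m κ J y) := ⟨_, rfl⟩
  rw [← hI]
  have hSD := hY κ J lam hκ hJ
  rw [← hI] at hSD
  -- both halves
  have key : ∀ (ψ : ℝ → ℂ), WtB m ψ M (ε / 2) K → ∀ η : ℝ, |η| ≤ e0 →
      ∫⁻ r in Set.Ioc (0 : ℝ) (Real.sqrt κ), ENNReal.ofReal
        (‖thA m ψ lam r‖ * r ^ (-((m : ℝ) ^ 2 / 2) - 1 + m * η)) ≤
      ENNReal.ofReal (CA * C0 * M * κ ^ (ε / 2)) * I := by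
    intro ψ hψ η hη
    have h1 := hA κ ψ lam M C1 η hκ hM (hη.trans he02) hψ hLam
    refine (h1.trans (mul_le_mul' le_rfl hSD)).trans (le_of_eq ?_)
    rw [← mul_assoc, ← ENNReal.ofReal_mul (by positivity)]
    congr 2
    ring
  -- the value in the disc
  have hdisc : ∀ s : ℂ, ‖s - (1 / 2 + t * Complex.I)‖ ≤ e0 →
      ENNReal.ofReal ‖LmA m (uu Φ (c1 D F)) lam s‖ ≤
        ENNReal.ofReal (2 * (CA * C0) * M * κ ^ (2 * (ε / 2))) * I := by
    intro s hs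
    obtain ⟨η, hη⟩ : ∃ η : ℝ, η = s.re - 1 / 2 := ⟨_, rfl⟩
    have hηe : |η| ≤ e0 := by
      have h1 := (Complex.abs_re_le_norm (s - (1 / 2 + t * Complex.I))).trans hs
      have h2 : (s - (1 / 2 + t * Complex.I)).re = η := by
        rw [hη]
        simp
      rw [h2] at h1
      exact h1
    have hη' : |(-η)| ≤ e0 := by
      rw [abs_neg]
      exact hηe
    have h3 := hSPB m κ lam (uu Φ (c1 D F)) (uu (Pool.Agent.H34.GA.cf Φ) (c2 D H xv F)) hm hκ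
      hK1 hK2 hFE s η (by rw [hη]; ring)
    refine spx_two hκ (by positivity) hM rfl rfl ?_ h3 (key _ hW1 (-η) hη')
      (key _ hW2 η hηe) hε1.le
    have h4 : -(m * η) ≤ m * e0 := by
      have := mul_le_mul_of_nonneg_left (abs_le.1 hηe).1 hm0.le
      linarith
    have h5 : (m : ℝ) * e0 ≤ m * (ε / 2 / (2 * m)) := mul_le_mul_of_nonneg_left he02 hm0.le
    have h6 : (m : ℝ) * (ε / 2 / (2 * m)) = ε / 4 := by
      field_simp
      norm_num
    linarith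
  have e1 : 2 * (ε / 2) = ε := by ring
  rw [e1] at hdisc
  -- the case of an infinite integral
  by_cases hItop : I = ⊤
  · rw [hItop, ENNReal.mul_top]
    · exact le_top
    · rw [Ne, ENNReal.ofReal_eq_zero, not_le]
      have : 0 < κ ^ ε := Real.rpow_pos_of_pos (by linarith) _
      positivity
  obtain ⟨I', hI'⟩ : ∃ I' : ℝ, I' = I.toReal := ⟨_, rfl⟩
  have hI0 : 0 ≤ I' := by
    rw [hI']
    exact ENNReal.toReal_nonneg
  have hII : I = ENNReal.ofReal I' := by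
    rw [hI', ENNReal.ofReal_toReal hItop]
  have hκe : 0 < κ ^ ε := Real.rpow_pos_of_pos (by linarith) _
  -- the lower bound of the zeta integral
  have hnear : ∀ z : Mat m, sz (z - 1) ≤ δ → ‖c1 D F z - 1‖ ≤ 1 / 4 := by
    intro z hz
    have h0 : 0 ≤ sz (z - 1) := norm_nonneg _
    have h2 : CN * (δ * P) ≤ 1 / 4 := by
      calc CN * (δ * P) ≤ CN * (1 / (4 * CN)) := mul_le_mul_of_nonneg_left hδN hCN0.le
        _ = 1 / 4 := by field_simp
    have h3 : δ ≤ δ * P := le_mul_of_one_le_right hδ0.le hP1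
    have h4 : CN * sz (z - 1) ≤ 1 := by
      calc CN * sz (z - 1) ≤ CN * (δ * P) :=
            mul_le_mul_of_nonneg_left (hz.trans h3) hCN0.le
        _ ≤ 1 := by linarith
    refine (hN N T D hS F lam hF.toHecA hn P hLip (by linarith) z h4).trans ?_
    calc CN * P * sz (z - 1) ≤ CN * P * δ := mul_le_mul_of_nonneg_left hz (by positivity)
      _ = CN * (δ * P) := by ring
      _ ≤ 1 / 4 := h2
  have hIfc := hCIF m N T D hS F lam mu hF
  have hlow : ∀ s : ℂ, ‖s - (1 / 2 + t * Complex.I)‖ ≤ e0 →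
      cP * δ ^ AP * (∏ k : Fin m × Fin m, ‖s - (((k.1 : ℕ) : ℂ) + 1 + mu k.2)‖) ≤
        ‖ZA Φ (c1 D F) s‖ := by
    intro s hs
    have h1 : ‖s‖ ≤ 1 / 2 + |t| + e0 := by
      have h2 : ‖s‖ ≤ ‖s - (1 / 2 + t * Complex.I)‖ + ‖(1 / 2 + t * Complex.I : ℂ)‖ := by
        have h3 := norm_add_le (s - (1 / 2 + t * Complex.I)) (1 / 2 + t * Complex.I : ℂ)
        rw [sub_add_cancel] at h3
        exact h3
      have h4 : ‖(1 / 2 + t * Complex.I : ℂ)‖ ≤ 1 / 2 + |t| := by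
        refine (norm_add_le _ _).trans (le_of_eq ?_)
        rw [norm_mul, Complex.norm_I, mul_one, Complex.norm_real, Real.norm_eq_abs]
        norm_num
      linarith
    have h5 : δ * (1 + ‖s‖) ≤ cP := by
      have h6 : 1 + ‖s‖ ≤ 5 / 2 * P := by linarith
      calc δ * (1 + ‖s‖) ≤ δ * (5 / 2 * P) := mul_le_mul_of_nonneg_left h6 hδ0.le
        _ = 5 / 2 * (δ * P) := by ring
        _ ≤ 5 / 2 * (2 * cP / 5) := by linarith
        _ = cP := by ring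
    have h7 := hΦL (c1 D F) mu hc1 hIfc hnear s h5
    refine le_trans (le_of_eq ?_) h7
    congr 1
    rw [Fintype.prod_prod_type]
    refine Finset.prod_congr rfl fun i _ => Finset.prod_congr rfl fun j _ => ?_
    congr 1
    ring
  -- the bound in the disc
  have hB : ∀ s : ℂ, ‖s - (1 / 2 + t * Complex.I)‖ ≤ e0 →
      ‖L s‖ * ∏ k : Fin m × Fin m, ‖s - (((k.1 : ℕ) : ℂ) + 1 + mu k.2)‖ ≤
        2 * (CA * C0) * M * κ ^ ε * I' * (cP * δ ^ AP)⁻¹ := by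
    intro s hs
    have h1 := hdisc s hs
    rw [hII, ← ENNReal.ofReal_mul (by positivity),
      ENNReal.ofReal_le_ofReal_iff (by positivity)] at h1
    have h2 : LmA m (uu Φ (c1 D F)) lam s = L s * ZA Φ (c1 D F) s := by
      rw [hLW _ hWc s, (hMLZ m hm (c1 D F) 1 hc1 Φ hΦ.toTg).2.2 s]
    rw [h2, norm_mul] at h1
    have h3 := hlow s hs
    have h4 : 0 < cP * δ ^ AP := by positivity
    rw [← div_eq_mul_inv, le_div_iff₀ h4]
    calc ‖L s‖ * (∏ k : Fin m × Fin m, ‖s - (((k.1 : ℕ) : ℂ) + 1 + mu k.2)‖) *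
          (cP * δ ^ AP)
        = ‖L s‖ * (cP * δ ^ AP *
          ∏ k : Fin m × Fin m, ‖s - (((k.1 : ℕ) : ℂ) + 1 + mu k.2)‖) := by ring
      _ ≤ ‖L s‖ * ‖ZA Φ (c1 D F) s‖ := mul_le_mul_of_nonneg_left h3 (norm_nonneg _)
      _ ≤ _ := h1
  have hfin := hCIR (Fin m × Fin m) (fun k => ((k.1 : ℕ) : ℂ) + 1 + mu k.2)
    (1 / 2 + t * Complex.I) e0 (2 * (CA * C0) * M * κ ^ ε * I' * (cP * δ ^ AP)⁻¹) L he0p he01
    (by positivity) hL hB
  rw [← hQ] at hfin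
  rw [hII, ← ENNReal.ofReal_mul (by positivity)]
  refine ENNReal.ofReal_le_ofReal (hfin.trans (le_of_eq ?_))
  rw [hMd, pow_add, mul_inv, inv_pow]
  ring

end Pool.Agent.H69.GA
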