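import Pool.Agent.H34.GA.Targets1
import Pool.Agent.H32.GZ.ABL

/-!
Row ABW of the board ga: half of the Mellin integral near the critical line, in terms of the
partial sums.
-/

set_option autoImplicit false

namespace Pool.Agent.H69.GA

open MeasureTheory Pool.Agent.H34.GM Pool.Agent.H34.GZ Pool.Agent.H34.GU Pool.Agent.H34.GA
  Pool.Agent.H32.GZ

/-- the shift of the exponent costs a power of `Q` -/
theorem abw_shift {z Q p ε e : ℝ} (hz0 : 0 < z) (hz1 : z ≤ 1) (hQ : 1 ≤ Q) (hp : 0 ≤ p)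
    (he : |e| ≤ ε / 2) : z ^ (-e) * min 1 ((Q * z) ^ (p + ε)) ≤
      Q ^ |e| * min 1 ((Q * z) ^ p) := by
  have hQ0 : 0 < Q := by linarith
  have hQz : 0 < Q * z := mul_pos hQ0 hz0
  have hae := abs_nonneg e
  have hle := le_abs_self e
  have hze : 0 < z ^ (-e) := Real.rpow_pos_of_pos hz0 _
  rcases le_total (Q * z) 1 with h | h
  · have h1 : (Q * z) ^ p ≤ 1 := Real.rpow_le_one hQz.le h hp
    rw [min_eq_right h1]
    have hpe : (Q * z) ^ (p + ε) = (Q * z) ^ p * (Q * z) ^ ε := Real.rpow_add hQz _ _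
    have h2 : (Q * z) ^ ε ≤ (Q * z) ^ |e| :=
      Real.rpow_le_rpow_of_exponent_ge hQz h (by linarith)
    have h3 : (Q * z) ^ |e| = Q ^ |e| * z ^ |e| := Real.mul_rpow hQ0.le hz0.le
    have h4 : z ^ (-e) * z ^ |e| ≤ 1 := by
      rw [← Real.rpow_add hz0]
      exact Real.rpow_le_one hz0.le hz1 (by linarith)
    have h5 : z ^ (-e) * (Q * z) ^ ε ≤ Q ^ |e| := by
      calc z ^ (-e) * (Q * z) ^ ε ≤ z ^ (-e) * (Q ^ |e| * z ^ |e|) := by
            rw [← h3]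
            exact mul_le_mul_of_nonneg_left h2 hze.le
        _ = Q ^ |e| * (z ^ (-e) * z ^ |e|) := by ring
        _ ≤ Q ^ |e| * 1 := mul_le_mul_of_nonneg_left h4 (Real.rpow_nonneg hQ0.le _)
        _ = Q ^ |e| := mul_one _
    calc z ^ (-e) * min 1 ((Q * z) ^ (p + ε)) ≤ z ^ (-e) * (Q * z) ^ (p + ε) :=
          mul_le_mul_of_nonneg_left (min_le_right _ _) hze.le
      _ = (z ^ (-e) * (Q * z) ^ ε) * (Q * z) ^ p := by rw [hpe]; ring
      _ ≤ Q ^ |e| * (Q * z) ^ p := mul_le_mul_of_nonneg_right h5 (Real.rpow_nonneg hQz.le _)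
  · have h1 : 1 ≤ (Q * z) ^ p := Real.one_le_rpow h hp
    rw [min_eq_left h1, mul_one]
    have h2 : z ^ (-e) ≤ z ^ (-|e|) := Real.rpow_le_rpow_of_exponent_ge hz0 hz1 (by linarith)
    have h3 : z ^ (-|e|) = (z⁻¹) ^ |e| := by
      rw [Real.rpow_neg hz0.le, Real.inv_rpow hz0.le]
    have h4 : z⁻¹ ≤ Q := by
      rw [inv_le_iff_one_le_mul₀ hz0]
      exact h
    have h5 : (z⁻¹) ^ |e| ≤ Q ^ |e| := Real.rpow_le_rpow (inv_nonneg.2 hz0.le) h4 hae
    calc z ^ (-e) * min 1 ((Q * z) ^ (p + ε)) ≤ z ^ (-e) * 1 :=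
          mul_le_mul_of_nonneg_left (min_le_left _ _) hze.le
      _ = z ^ (-e) := mul_one _
      _ ≤ Q ^ |e| := by
          rw [h3] at h2
          exact h2.trans h5

/-- the inner integral with a shifted exponent -/
theorem abw_inner (b ε z Q p e : ℝ) (K : ℕ) (hε : 0 < ε) (hz0 : 0 < z)
    (hz1 : z ≤ 1) (hQ : 1 ≤ Q) (hp : 0 ≤ p) (he : |e| ≤ ε / 2) (hK : b + p + 2 * ε + 1 ≤ K) :
    ∫⁻ r in Set.Ioc (0 : ℝ) Q, ENNReal.ofReal (min ((r * z) ^ K) ((r * z) ^ (b + ε)) *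
      r ^ (-b - 1 + e)) ≤
      ENNReal.ofReal ((1 + 2 / ε) * Q ^ (2 * ε) * (z ^ b * min 1 ((Q * z) ^ p))) := by
  have hQ0 : 0 < Q := by linarith
  have hQz : 0 < Q * z := mul_pos hQ0 hz0
  obtain ⟨he1, he2⟩ := abs_le.1 he
  have h1 := inner_bound (b - e) (ε + e) z Q (p + ε) K (by linarith) hz0 hz1 hQ (by linarith)
    (by linarith)
  have e1 : b - e + (ε + e) = b + ε := by ring
  have e2 : -(b - e) - 1 = -b - 1 + e := by ring
  rw [e1, e2] at h1
  refine h1.trans (ENNReal.ofReal_le_ofReal ?_)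
  have h2 := abw_shift hz0 hz1 hQ hp he
  have h3 : z ^ (b - e) = z ^ b * z ^ (-e) := by
    rw [← Real.rpow_add hz0]
    congr 1
  have h4 : 1 + 1 / (ε + e) ≤ 1 + 2 / ε := by
    have h5 : 1 / (ε + e) ≤ 2 / ε := by
      rw [div_le_div_iff₀ (by linarith) hε]
      linarith
    linarith
  have h6 : Q ^ (ε + e) * Q ^ |e| ≤ Q ^ (2 * ε) := by
    rw [← Real.rpow_add hQ0]
    refine Real.rpow_le_rpow_of_exponent_le hQ ?_
    have := le_abs_self e
    linarith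
  have h7 : 0 < z ^ b := Real.rpow_pos_of_pos hz0 _
  have h8 : 0 ≤ min 1 ((Q * z) ^ p) := le_min zero_le_one (Real.rpow_nonneg hQz.le _)
  have h9 : 0 < Q ^ (ε + e) := Real.rpow_pos_of_pos hQ0 _
  have h10 : 0 ≤ 1 + 1 / (ε + e) := by
    have : 0 < 1 / (ε + e) := one_div_pos.2 (by linarith)
    linarith
  have h11 : 0 ≤ 1 + 2 / ε := by positivity
  calc (1 + 1 / (ε + e)) * Q ^ (ε + e) * (z ^ (b - e) * min 1 ((Q * z) ^ (p + ε)))
      = ((1 + 1 / (ε + e)) * Q ^ (ε + e) * z ^ b) *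
        (z ^ (-e) * min 1 ((Q * z) ^ (p + ε))) := by rw [h3]; ring
    _ ≤ ((1 + 1 / (ε + e)) * Q ^ (ε + e) * z ^ b) * (Q ^ |e| * min 1 ((Q * z) ^ p)) :=
        mul_le_mul_of_nonneg_left h2 (by positivity)
    _ = (1 + 1 / (ε + e)) * (Q ^ (ε + e) * Q ^ |e|) * (z ^ b * min 1 ((Q * z) ^ p)) := by ring
    _ ≤ (1 + 2 / ε) * Q ^ (2 * ε) * (z ^ b * min 1 ((Q * z) ^ p)) :=
        mul_le_mul_of_nonneg_right (mul_le_mul h4 h6 (by positivity) h11)
          (mul_nonneg h7.le h8)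

theorem abw_core (m : ℕ) (κ : ℝ) (hm : 1 ≤ m) (hκ : 1 ≤ κ) (ε J M e : ℝ) (hε : 0 < ε)
    (hJ : 0 ≤ J) (hM : 0 ≤ M) (he : |e| ≤ ε / 2) (K : ℕ)
    (hK : (m : ℝ) ^ 2 / 2 + m * J + 2 * ε + 1 ≤ K) (lam : ℕ → ℂ) (th : ℝ → ℝ)
    (hth : ∀ r : ℝ, 0 < r → ENNReal.ofReal (th r) ≤ ∫⁻ y in Set.Ioi (1 : ℝ), ENNReal.ofReal
      (‖SF m 1 lam y‖ * ((m : ℝ)⁻¹ * y⁻¹ * (M * min ((r * y ^ (-(1 / (m : ℝ)))) ^ K)
        ((r * y ^ (-(1 / (m : ℝ)))) ^ ((m : ℝ) ^ 2 / 2 + ε)))))) (hth0 : ∀ r, 0 ≤ th r) :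
    ∫⁻ r in Set.Ioc (0 : ℝ) (Real.sqrt κ), ENNReal.ofReal
        (th r * r ^ (-((m : ℝ) ^ 2 / 2) - 1 + e)) ≤
      ENNReal.ofReal ((1 + 2 / ε) * M * κ ^ ε) *
        ∫⁻ y in Set.Ioi (1 : ℝ), ENNReal.ofReal
          (‖SF m 1 lam y‖ * y ^ (-((m : ℝ) / 2) - 1) * wK m κ J y) := by
  have hm1 : (1 : ℝ) ≤ m := by exact_mod_cast hm
  have hm0 : (0 : ℝ) < m := by linarith
  have hq0 : 0 < κ := by linarith
  set b : ℝ := (m : ℝ) ^ 2 / 2 with hb
  have hb0 : 0 ≤ b := by positivity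
  have hQ1 : 1 ≤ Real.sqrt κ := Real.one_le_sqrt.2 hκ
  have hSF := measurable_SF m 1 lam
  set G : ℝ → ENNReal := fun y => ENNReal.ofReal (‖SF m 1 lam y‖ * ((m : ℝ)⁻¹ * y⁻¹ * M)) with hG
  set H : ℝ → ℝ → ENNReal := fun r y => ENNReal.ofReal (min ((r * y ^ (-(1 / (m : ℝ)))) ^ K)
    ((r * y ^ (-(1 / (m : ℝ)))) ^ (b + ε)) * r ^ (-b - 1 + e)) with hH
  have hGm : Measurable G := by
    refine ENNReal.measurable_ofReal.comp (hSF.norm.mul ?_)
    exact (measurable_const.mul measurable_inv).mul measurable_const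
  have hHm : Measurable (fun pr : ℝ × ℝ => H pr.1 pr.2) := by
    refine ENNReal.measurable_ofReal.comp ?_
    have h1 : Measurable (fun pr : ℝ × ℝ => pr.1 * pr.2 ^ (-(1 / (m : ℝ)))) :=
      measurable_fst.mul (measurable_snd.pow_const _)
    exact ((h1.pow_const K).min (h1.pow_const _)).mul (measurable_fst.pow_const _)
  have hstep1 : ∫⁻ r in Set.Ioc (0 : ℝ) (Real.sqrt κ), ENNReal.ofReal
      (th r * r ^ (-b - 1 + e)) ≤
      ∫⁻ r in Set.Ioc (0 : ℝ) (Real.sqrt κ), ∫⁻ y in Set.Ioi (1 : ℝ), G y * H r y := by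
    refine setLIntegral_mono' measurableSet_Ioc fun r hr => ?_
    rw [ENNReal.ofReal_mul (hth0 r)]
    refine (mul_le_mul' (hth r hr.1) le_rfl).trans ?_
    rw [← lintegral_mul_const' _ _ ENNReal.ofReal_ne_top]
    refine setLIntegral_mono' measurableSet_Ioi fun y hy => ?_
    have hy1 : (1 : ℝ) < y := hy
    have hy0 : 0 < y := by linarith
    have hz : 0 < y ^ (-(1 / (m : ℝ))) := Real.rpow_pos_of_pos hy0 _
    have hmin : 0 ≤ min ((r * y ^ (-(1 / (m : ℝ)))) ^ K)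
        ((r * y ^ (-(1 / (m : ℝ)))) ^ (b + ε)) := by
      have := hr.1
      apply le_min <;> positivity
    rw [hG, hH]
    simp only
    rw [← ENNReal.ofReal_mul (by positivity), ← ENNReal.ofReal_mul (by positivity)]
    apply ENNReal.ofReal_le_ofReal
    apply le_of_eq
    ring
  refine hstep1.trans ?_
  rw [lintegral_lintegral_swap]
  swap
  · refine Measurable.aemeasurable ?_
    exact (hGm.comp measurable_snd).mul hHm
  calc ∫⁻ y in Set.Ioi (1 : ℝ), ∫⁻ r in Set.Ioc (0 : ℝ) (Real.sqrt κ), G y * H r y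
      = ∫⁻ y in Set.Ioi (1 : ℝ), G y * ∫⁻ r in Set.Ioc (0 : ℝ) (Real.sqrt κ), H r y := by
        refine lintegral_congr fun y => ?_
        rw [lintegral_const_mul' _ _ ENNReal.ofReal_ne_top]
    _ ≤ ∫⁻ y in Set.Ioi (1 : ℝ), ENNReal.ofReal ((1 + 2 / ε) * M * κ ^ ε) *
          ENNReal.ofReal (‖SF m 1 lam y‖ * y ^ (-((m : ℝ) / 2) - 1) * wK m κ J y) := by
        refine setLIntegral_mono' measurableSet_Ioi fun y hy => ?_
        have hy1 : (1 : ℝ) < y := hy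
        have hy0 : 0 < y := by linarith
        set z : ℝ := y ^ (-(1 / (m : ℝ))) with hz
        have hz0 : 0 < z := Real.rpow_pos_of_pos hy0 _
        have hz1 : z ≤ 1 := Real.rpow_le_one_of_one_le_of_nonpos hy1.le
          (by
            have : 0 < 1 / (m : ℝ) := by positivity
            linarith)
        have h1 := abw_inner b ε z (Real.sqrt κ) (m * J) e K hε hz0 hz1 hQ1 (by positivity)
          he hK
        refine (mul_le_mul' le_rfl h1).trans ?_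
        rw [hG]
        simp only
        have hzb : z ^ b = y ^ (-((m : ℝ) / 2)) := by
          rw [hz, ← Real.rpow_mul hy0.le]
          congr 1
          rw [hb]
          field_simp
        have hQe : Real.sqrt κ ^ (2 * ε) = κ ^ ε := by
          rw [Real.sqrt_eq_rpow, ← Real.rpow_mul hq0.le]
          congr 1
          ring
        have hw : (Real.sqrt κ * z) ^ ((m : ℝ) * J) = (κ ^ ((m : ℝ) / 2) / y) ^ J := by
          rw [Real.rpow_mul (by positivity)]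
          congr 1
          rw [Real.mul_rpow (Real.sqrt_nonneg _) hz0.le, Real.sqrt_eq_rpow,
            ← Real.rpow_mul hq0.le, hz, ← Real.rpow_mul hy0.le]
          have e1 : 1 / 2 * (m : ℝ) = (m : ℝ) / 2 := by ring
          have e2 : -(1 / (m : ℝ)) * (m : ℝ) = -1 := by field_simp
          rw [e1, e2, Real.rpow_neg_one]
          rfl
        have hwJ : min 1 ((Real.sqrt κ * z) ^ ((m : ℝ) * J)) = wK m κ J y := by
          rw [hw]
          rfl
        have hwJ0 : 0 ≤ wK m κ J y := by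
          unfold wK
          apply le_min
          · exact zero_le_one
          · positivity
        rw [hwJ, hzb, hQe, ← ENNReal.ofReal_mul (by positivity),
          ← ENNReal.ofReal_mul (by positivity)]
        apply ENNReal.ofReal_le_ofReal
        have e3 : y ^ (-((m : ℝ) / 2) - 1) = y⁻¹ * y ^ (-((m : ℝ) / 2)) := by
          rw [Real.rpow_sub hy0, Real.rpow_one]
          field_simp
        rw [e3]
        have hmi : (m : ℝ)⁻¹ ≤ 1 := inv_le_one_of_one_le₀ hm1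
        calc ‖SF m 1 lam y‖ * ((m : ℝ)⁻¹ * y⁻¹ * M) * ((1 + 2 / ε) * κ ^ ε *
              (y ^ (-((m : ℝ) / 2)) * wK m κ J y))
            = (m : ℝ)⁻¹ * ((1 + 2 / ε) * M * κ ^ ε *
              (‖SF m 1 lam y‖ * (y⁻¹ * y ^ (-((m : ℝ) / 2))) * wK m κ J y)) := by ring
          _ ≤ 1 * ((1 + 2 / ε) * M * κ ^ ε *
              (‖SF m 1 lam y‖ * (y⁻¹ * y ^ (-((m : ℝ) / 2))) * wK m κ J y)) := by
              apply mul_le_mul_of_nonneg_right hmi
              positivity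
          _ = (1 + 2 / ε) * M * κ ^ ε *
              (‖SF m 1 lam y‖ * (y⁻¹ * y ^ (-((m : ℝ) / 2))) * wK m κ J y) := by ring
    _ = ENNReal.ofReal ((1 + 2 / ε) * M * κ ^ ε) *
        ∫⁻ y in Set.Ioi (1 : ℝ), ENNReal.ofReal
          (‖SF m 1 lam y‖ * y ^ (-((m : ℝ) / 2) - 1) * wK m κ J y) := by
        rw [lintegral_const_mul' _ _ ENNReal.ofReal_ne_top]

theorem pf_ABW (hABA : T_ABA) : T_ABW := by
  intro m hm ε J hε hJ
  obtain ⟨K, hK⟩ := exists_nat_ge ((m : ℝ) ^ 2 / 2 + m * J + 2 * ε + m * (m + 2) + 1)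
  have hm1 : (1 : ℝ) ≤ m := by exact_mod_cast hm
  have hm0 : (0 : ℝ) < m := by linarith
  have hmJ : 0 ≤ (m : ℝ) * J := by positivity
  have hmm : 0 ≤ (m : ℝ) ^ 2 / 2 := by positivity
  have hm2 : 0 ≤ (m : ℝ) * (m + 2) := by positivity
  have hK1 : m * (m + 2) < K := by
    have : ((m * (m + 2) : ℕ) : ℝ) < K := by
      push_cast
      linarith
    exact_mod_cast this
  refine ⟨K, 1 + 2 / ε, by linarith, hK1, by positivity, ?_⟩
  intro κ ψ lam M C1 η hκ hM hη hWt hlam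
  have he : |(m : ℝ) * η| ≤ ε / 2 := by
    rw [abs_mul, abs_of_pos hm0]
    calc (m : ℝ) * |η| ≤ m * (ε / (2 * m)) := mul_le_mul_of_nonneg_left hη hm0.le
      _ = ε / 2 := by field_simp
  exact abw_core m κ hm hκ ε J M (m * η) hε hJ hM he K (by linarith) lam
    (fun r => ‖thA m ψ lam r‖)
    (fun r hr => hABA m K ψ lam M ε C1 hm hK1 hWt hlam r hr) (fun r => norm_nonneg _)

end Pool.Agent.H69.GA
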