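import Pool.Agent.H34.GA.Targets1
import Pool.Agent.H34.GM.ZMT

/-!
Row MLZ of the board ga: the local zeta integral is the Mellin transform of the local transform.
-/

set_option autoImplicit false

namespace Pool.Agent.H69.GA

open MeasureTheory Set Filter Topology Pool.Agent.H34.GM Pool.Agent.H34.GA

theorem mlz_bd {m : ℕ} {Φ : Mat m → ℂ} (h : Tg m Φ) : ∃ M : ℝ, 0 ≤ M ∧ ∀ z, ‖Φ z‖ ≤ M := by
  obtain ⟨c, hc, hs⟩ := h.supp
  have h1 : ContinuousOn (fun z : V m => Φ (mt z)) (Metric.closedBall 0 c) :=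
    (h.cont.comp th1_cmt).continuousOn
  obtain ⟨M, hM⟩ := (isCompact_closedBall (0 : V m) c).exists_bound_of_continuousOn h1
  refine ⟨max M 0, le_max_right _ _, fun z => ?_⟩
  by_cases hz : Φ z = 0
  · rw [hz, norm_zero]
    exact le_max_right _ _
  · have h2 : ((fun i j => z i j) : V m) ∈ Metric.closedBall (0 : V m) c := by
      rw [mem_closedBall_zero_iff]
      exact (hs z hz).1
    exact (hM _ h2).trans (le_max_left _ _)

theorem mlz_supp (hM : T_MSR) {m : ℕ} (hm1 : 1 ≤ m) {Φ : Mat m → ℂ} (h : Tg m Φ)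
    (f : Mat m → ℂ) : ∃ r0 : ℝ, 1 < r0 ∧ ∀ r : ℝ, 0 < r →
    uu Φ f r ≠ 0 → r0⁻¹ ≤ r ∧ r ≤ r0 := by
  obtain ⟨c, hc, hs⟩ := h.supp
  obtain ⟨B, hB0, hB⟩ := th1_detbd m c
  refine ⟨1 + c + B, by linarith, fun r hr hne => ?_⟩
  have h1 : ∃ z ∈ Shell m, Φ ((r⁻¹ * (aN (mt z))⁻¹) • mt z) ≠ 0 := by
    by_contra hcon
    push Not at hcon
    apply hne
    unfold uu
    rw [setIntegral_congr_fun (g := fun _ => (0 : ℂ)) (hM.1 m).2.2.2.2.2.1
      (fun z hz => by simp only [hcon z hz, zero_mul])]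
    simp
  obtain ⟨z, hz, hw⟩ := h1
  have hd := th1_det_norm hm1 (th1_det_ne hm1 hz) (inv_pos.2 hr)
  obtain ⟨h2, h3⟩ := hs _ hw
  have h4 := hB _ h2
  rw [hd] at h3 h4
  have hrm : 0 < r ^ m := pow_pos hr m
  rw [inv_pow] at h3 h4
  have h5 : r ^ m ≤ c := by
    rwa [inv_le_inv₀ hc hrm] at h3
  constructor
  · by_cases hr1 : r ≤ 1
    · have h6 : r ^ m ≤ r := pow_le_of_le_one hr.le hr1 (by omega)
      have h7 : (1 : ℝ) ≤ B * r ^ m := by
        rwa [← div_le_iff₀ hrm, one_div]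
      rw [inv_le_comm₀ (by positivity) hr]
      have h8 : r⁻¹ ≤ B := by
        rw [inv_le_iff_one_le_mul₀ hr]
        exact h7.trans (mul_le_mul_of_nonneg_left h6 hB0)
      linarith
    · have h9 : (1 + c + B)⁻¹ ≤ 1 := inv_le_one_of_one_le₀ (by linarith)
      linarith
  · by_cases hr1 : r ≤ 1
    · linarith
    · have h6 : r ≤ r ^ m := le_self_pow₀ (by linarith) (by omega)
      linarith

theorem mlz_cont (hM : T_MSR) (hH : T_HAR) {m : ℕ} (hm1 : 1 ≤ m) {Φ : Mat m → ℂ}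
    {f : Mat m → ℂ} {P : ℝ} (hfm : AEStronglyMeasurable (fun z : V m => f (mt z)) (hm m))
    (hfb : ∀ z : Mat m, z.det ≠ 0 → ‖f z‖ ≤ P) (h : Tg m Φ) {r0 : ℝ} (hr0 : 0 < r0) :
    ContinuousAt (uu Φ f) r0 := by
  obtain ⟨-, -, hA, -, -, hSh, -, -⟩ := hM.1 m
  obtain ⟨c, hc, hs⟩ := h.supp
  obtain ⟨M, hM0, hMb⟩ := mlz_bd h
  set c1 : ℝ := max 1 (2 * r0 * Real.exp 1 * c) with hc1
  have hc1p : 0 < c1 := lt_of_lt_of_le one_pos (le_max_left _ _)
  have hP0 : 0 ≤ P := (norm_nonneg _).trans (hfb 1 (by simp))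
  have hPb : ∀ z ∈ th1K m c1, ‖f (mt z)‖ ≤ P := fun z hz => hfb _ (th1K_sub hc1p hz)
  have hfin : hm m (th1K m c1) < ⊤ := (hH m hm1).2.2.2 c1 hc1p
  have hKm : MeasurableSet (th1K m c1) := (th1K_compact m c1).measurableSet
  unfold uu
  have hnb : ∀ᶠ r in 𝓝 r0, 0 < r ∧ r ≤ 2 * r0 :=
    (eventually_gt_nhds hr0).and ((eventually_lt_nhds (by linarith)).mono fun _ h => h.le)
  refine continuousAt_of_dominated (bound := (th1K m c1).indicator fun _ => M * P) ?_ ?_ ?_ ?_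
  · refine Filter.Eventually.of_forall fun r => ?_
    exact (th1_meas hM h.cont r⁻¹).aestronglyMeasurable.mul
      (hfm.mono_measure Measure.restrict_le_self)
  · filter_upwards [hnb] with r hr
    refine (ae_restrict_iff' hSh).2 (Filter.Eventually.of_forall fun z hz => ?_)
    by_cases hw : Φ ((r⁻¹ * (aN (mt z))⁻¹) • mt z) = 0
    · rw [hw, zero_mul, norm_zero]
      exact Set.indicator_nonneg (fun _ _ => mul_nonneg hM0 hP0) _
    · have h1 := (hs _ hw).1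
      have ha0 : 0 < aN (mt z) := lt_of_lt_of_le one_pos hz.1
      rw [th1_szsmul, abs_of_pos (mul_pos (inv_pos.2 hr.1) (inv_pos.2 ha0))] at h1
      have h2 : sz (mt z) ≤ c1 := by
        have h3 : sz (mt z) = r * aN (mt z) * (r⁻¹ * (aN (mt z))⁻¹ * sz (mt z)) := by
          have := hr.1.ne'
          field_simp
        rw [h3]
        refine le_trans ?_ (le_max_right _ _)
        have h4 : r * aN (mt z) ≤ 2 * r0 * Real.exp 1 :=
          mul_le_mul hr.2 hz.2.le ha0.le (by linarith)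
        exact mul_le_mul h4 h1 (mul_nonneg (mul_pos (inv_pos.2 hr.1) (inv_pos.2 ha0)).le
          (norm_nonneg _)) (by positivity)
      have h5 : c1⁻¹ ≤ |(mt z).det| := by
        rw [← th1_aN_pow hm1]
        exact (inv_le_one_of_one_le₀ (le_max_left _ _)).trans (one_le_pow₀ hz.1)
      have hzK : z ∈ th1K m c1 := ⟨h2, h5⟩
      rw [Set.indicator_of_mem hzK, norm_mul]
      exact mul_le_mul (hMb _) (hPb z hzK) (norm_nonneg _) hM0
  · have h1 : IntegrableOn (fun _ : V m => M * P) (th1K m c1) (hm m) :=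
      integrableOn_const hfin.ne
    exact ((integrable_indicator_iff hKm).2 h1).mono_measure Measure.restrict_le_self
  · refine (ae_restrict_iff' hSh).2 (Filter.Eventually.of_forall fun z hz => ?_)
    have h1 : ContinuousAt (fun r : ℝ => (r⁻¹ * (aN (mt z))⁻¹) • mt z) r0 :=
      (((continuousAt_inv₀ hr0.ne').mul continuousAt_const).smul continuousAt_const)
    exact (h.cont.continuousAt.comp h1).mul continuousAt_const

/-- the integrand of the zeta integral -/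
noncomputable def mlzf {m : ℕ} (Φ f : Mat m → ℂ) (w : ℂ) (z : V m) : ℂ :=
  Φ (mt z) * ((|(mt z).det| : ℝ) : ℂ) ^ w * f (mt z)

theorem mlz_int (hH : T_HAR) {m : ℕ} (hm1 : 1 ≤ m) {Φ : Mat m → ℂ}
    {f : Mat m → ℂ} {P : ℝ} (hfm : AEStronglyMeasurable (fun z : V m => f (mt z)) (hm m))
    (hfb : ∀ z : Mat m, z.det ≠ 0 → ‖f z‖ ≤ P) (h : Tg m Φ) (w : ℂ) :
    Integrable (mlzf Φ f w) (hm m) := by
  obtain ⟨c, hc, hs⟩ := h.supp
  have hco : ContinuousOn (fun z : V m => Φ (mt z) * ((|(mt z).det| : ℝ) : ℂ) ^ w)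
      {z | (mt z).det ≠ 0} := by
    refine ((h.cont.comp th1_cmt).continuousOn.mul ?_)
    intro z hz
    have h1 : ContinuousAt (fun z : V m => ((|(mt z).det| : ℝ) : ℂ)) z :=
      (Complex.continuous_ofReal.comp th1_cdet.abs).continuousAt
    exact (h1.cpow continuousAt_const
      (Complex.ofReal_mem_slitPlane.2 (abs_pos.2 hz))).continuousWithinAt
  have hKc := th1K_compact m c
  have hfin : hm m (th1K m c) < ⊤ := (hH m hm1).2.2.2 c hc
  have hsupp : Function.support (mlzf Φ f w) ⊆ th1K m c := by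
    intro z hz
    have h1 : Φ (mt z) ≠ 0 := by
      intro h0
      apply hz
      unfold mlzf
      rw [h0, zero_mul, zero_mul]
    exact hs _ h1
  obtain ⟨B, hB⟩ := hKc.exists_bound_of_continuousOn (hco.mono (th1K_sub hc))
  refine (integrableOn_iff_integrable_of_support_subset hsupp).1 ?_
  have : IsFiniteMeasure ((hm m).restrict (th1K m c)) := ⟨by simpa using hfin⟩
  refine Integrable.of_bound
    (((hco.mono (th1K_sub hc)).aestronglyMeasurable hKc.measurableSet).mul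
      (hfm.mono_measure Measure.restrict_le_self)) (B * P) ?_
  refine (ae_restrict_iff' hKc.measurableSet).2 (Filter.Eventually.of_forall fun z hz => ?_)
  have h2 := hB z hz
  have h3 := hfb _ (th1K_sub hc hz)
  unfold mlzf
  rw [norm_mul]
  exact mul_le_mul h2 h3 (norm_nonneg _) ((norm_nonneg _).trans h2)

theorem mlz_eq (hM : T_MSR) (hH : T_HAR) (hPL : T_PLC) {m : ℕ} (hm1 : 1 ≤ m) {Φ : Mat m → ℂ}
    {f : Mat m → ℂ} {P : ℝ} (hfm : AEStronglyMeasurable (fun z : V m => f (mt z)) (hm m))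
    (hfb : ∀ z : Mat m, z.det ≠ 0 → ‖f z‖ ≤ P)
    (hfs : ∀ r : ℝ, 0 < r → ∀ z : Mat m, z.det ≠ 0 → f (r • z) = f z) (h : Tg m Φ) (s : ℂ) :
    MelA m (uu Φ f) s = ZA Φ f s := by
  have hSh := (hM.1 m).2.2.2.2.2.1
  set w : ℂ := s + ((m : ℂ) - 1) / 2 with hw
  have h1 := ((hPL m hm1).1 (mlzf Φ f w) (mlz_int hH hm1 hfm hfb h w)).2.2
  have h2 : ZA Φ f s = ∫ z, mlzf Φ f w z ∂(hm m) := rfl
  have h0 : MelA m (uu Φ f) s = mellin (uu Φ f) (-((m : ℂ) * w)) := by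
    unfold MelA mellin
    refine setIntegral_congr_fun measurableSet_Ioi fun r hr => ?_
    show uu Φ f r * (r : ℂ) ^ (-((m : ℂ) * (s + ((m : ℂ) - 1) / 2)) - 1) =
      (r : ℂ) ^ (-((m : ℂ) * w) - 1) • uu Φ f r
    rw [smul_eq_mul, mul_comm]
  rw [h0, h2, h1, ← mellin_comp_inv]
  unfold mellin
  refine setIntegral_congr_fun measurableSet_Ioi fun r hr => ?_
  have hr' : (0 : ℝ) < r := hr
  have hrc : ((r : ℝ) : ℂ) ≠ 0 := by exact_mod_cast hr'.ne'
  have h3 : ∫ z in Shell m, mlzf Φ f w ((r * (aN (mt z))⁻¹) • z) ∂(hm m) =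
      (r : ℂ) ^ ((m : ℂ) * w) * uu Φ f r⁻¹ := by
    unfold uu
    rw [← integral_const_mul]
    refine setIntegral_congr_fun hSh fun z hz => ?_
    have hd := th1_det_ne hm1 hz
    have ha0 : 0 < aN (mt z) := lt_of_lt_of_le one_pos hz.1
    have e1 : mt ((r * (aN (mt z))⁻¹) • z) = (r * (aN (mt z))⁻¹) • mt z := rfl
    show Φ (mt ((r * (aN (mt z))⁻¹) • z)) *
      ((|(mt ((r * (aN (mt z))⁻¹) • z)).det| : ℝ) : ℂ) ^ w *
      f (mt ((r * (aN (mt z))⁻¹) • z)) = _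
    rw [e1, th1_det_norm hm1 hd hr', zmt_pow hr',
      hfs _ (mul_pos hr' (inv_pos.2 ha0)) _ hd, inv_inv]
    ring
  show (r : ℂ) ^ ((m : ℂ) * w - 1) • uu Φ f r⁻¹ =
    (∫ z in Shell m, mlzf Φ f w ((r * (aN (mt z))⁻¹) • z) ∂(hm m)) * (r : ℂ)⁻¹
  rw [h3, Complex.cpow_sub _ _ hrc, Complex.cpow_one, smul_eq_mul]
  ring

theorem pf_MLZ : T_MSR → T_HAR → T_PLC → T_MLZ := by
  intro hM hH hPL m hm1 c M hc Φ hΦ
  refine ⟨mlz_supp hM hm1 hΦ c, fun r hr =>
    (mlz_cont hM hH hm1 hc.meas hc.bd hΦ hr).continuousWithinAt, fun s => ?_⟩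
  exact mlz_eq hM hH hPL hm1 hc.meas hc.bd hc.scal hΦ s

end Pool.Agent.H69.GA
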