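import Pool.Agent.H34.GA.Targets1

/-!
Row SMA of the board ga: decay of the sums for one form.
-/

set_option autoImplicit false

namespace Pool.Agent.H69.GA

open MeasureTheory Pool.Agent.H34.GM Pool.Agent.H34.GZ Pool.Agent.H34.GU Pool.Agent.H34.GA

/-- the sums with a small weight function -/
theorem sma_sum {m K1 : ℕ} {ψ : ℝ → ℂ} {lam : ℕ → ℂ} {C0 C1 : ℝ} (hm : 1 ≤ m) (hC0 : 0 ≤ C0)
    (hC1 : 0 ≤ C1) (hK1 : m * (m + 2) ≤ K1)
    (hc : ∀ n : ℕ, 1 ≤ n → ‖(n : ℂ) ^ (((m : ℂ) - 1) / 2) * lam n‖ ≤ C0 * (n : ℝ) ^ m)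
    (hloc : ∀ t : ℝ, 0 < t → ‖ψ t‖ ≤ C1 * t ^ K1) :
    ∀ r : ℝ, 0 < r → ‖thA m ψ lam r‖ ≤ C0 * C1 * (∑' n : ℕ, 1 / (n : ℝ) ^ 2) * r ^ K1 := by
  have hmR : (1 : ℝ) ≤ m := by exact_mod_cast hm
  have hsum : Summable fun n : ℕ => 1 / (n : ℝ) ^ 2 :=
    Real.summable_one_div_nat_pow.mpr (by norm_num)
  set S2 : ℝ := ∑' n : ℕ, 1 / (n : ℝ) ^ 2 with hS2
  have hS20 : 0 ≤ S2 := tsum_nonneg fun n => by positivity
  intro r hr
  unfold thA
  have hs : HasSum (fun n : ℕ => C0 * C1 * r ^ K1 * (1 / (n : ℝ) ^ 2))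
      (C0 * C1 * r ^ K1 * S2) := hsum.hasSum.mul_left _
  have e1 : C0 * C1 * S2 * r ^ K1 = C0 * C1 * r ^ K1 * S2 := by ring
  rw [e1]
  refine tsum_of_norm_bounded hs fun n => ?_
  split_ifs with h1
  · have hnR : (1 : ℝ) ≤ n := by exact_mod_cast h1
    have hn0 : (0 : ℝ) < n := by linarith
    have ht0 : 0 < r * (n : ℝ) ^ (-(1 / (m : ℝ))) := mul_pos hr (Real.rpow_pos_of_pos hn0 _)
    rw [norm_mul]
    calc _ ≤ (C0 * (n : ℝ) ^ m) * (C1 * (r * (n : ℝ) ^ (-(1 / (m : ℝ)))) ^ K1) :=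
          mul_le_mul (hc n h1) (hloc _ ht0) (norm_nonneg _) (by positivity)
      _ = C0 * C1 * r ^ K1 * ((n : ℝ) ^ m * ((n : ℝ) ^ (-(1 / (m : ℝ)))) ^ K1) := by
          rw [mul_pow]
          ring
      _ ≤ C0 * C1 * r ^ K1 * (1 / (n : ℝ) ^ 2) := by
          apply mul_le_mul_of_nonneg_left _ (by positivity)
          have e2 : (1 : ℝ) / (n : ℝ) ^ 2 = (n : ℝ) ^ (-(2 : ℝ)) := by
            rw [Real.rpow_neg hn0.le, Real.rpow_two, one_div]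
          have e3 : (n : ℝ) ^ m * ((n : ℝ) ^ (-(1 / (m : ℝ)))) ^ K1 =
              (n : ℝ) ^ ((m : ℝ) + (-(1 / (m : ℝ))) * (K1 : ℝ)) := by
            rw [Real.rpow_add hn0, Real.rpow_natCast, Real.rpow_mul hn0.le, Real.rpow_natCast]
          rw [e2, e3]
          apply Real.rpow_le_rpow_of_exponent_le hnR
          have h5 : ((m : ℝ) + 2) ≤ (1 / (m : ℝ)) * (K1 : ℝ) := by
            rw [one_div, inv_mul_eq_div, le_div_iff₀ (by linarith)]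
            have h6 : ((m * (m + 2) : ℕ) : ℝ) ≤ K1 := by exact_mod_cast hK1
            push_cast at h6
            linarith
          linarith
  · rw [norm_zero]
    positivity

theorem pf_SMA (hFR : T_FR1) (hCFA : T_CFA) (hCFB : Pool.Agent.H34.GA.T_CFB) (hMLZ : T_MLZ)
    (hFEA : T_FEA) (hUBD : T_UBD) (hFTB : T_FTB) (hLMA : T_LMA) :
    Pool.Agent.H34.GA.T_SMA := by
  intro m N0 _ T D hS F lam hC hn Φ hΦ hAd
  have hm : 1 ≤ m := hS.one_le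
  have hmR : (1 : ℝ) ≤ m := by exact_mod_cast hm
  obtain ⟨H, xv, hFr⟩ := hFR m N0 hm hS.two_le
  have hc1 := hCFA m N0 T D hS F lam hC.toHecA
  have hc2 := hCFB m N0 T D hS H xv hFr F lam hC.toHecA
  obtain ⟨hsupp, hcont, -⟩ := hMLZ m hm (c1 D F) _ hc1 Φ hΦ.toTg
  refine ⟨hcont, hsupp, fun N => ?_⟩
  obtain ⟨q, hqd⟩ : ∃ q : ℝ, q = kp m N0 := ⟨_, rfl⟩
  have hq1 : (1 : ℝ) ≤ q := by
    have h1 : 1 ≤ N0 := by have := hS.two_le; omega
    rw [hqd]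
    unfold kp
    exact Real.one_le_rpow (by exact_mod_cast h1) (by positivity)
  have hq0 : (0 : ℝ) < q := by linarith
  have hM0 : 0 ≤ nU D F := by
    unfold nU
    exact Finset.sum_nonneg fun x _ => integral_nonneg fun z => by positivity
  obtain ⟨C0, hC0, hc⟩ := hLMA m N0 T D hS F lam hC.toHecA hn
  set K1 : ℕ := N + m ^ 2 + m * (m + 2) with hK1
  have hK1R : (m : ℝ) ^ 2 ≤ (K1 : ℝ) := by
    have : m ^ 2 ≤ K1 := by omega
    exact_mod_cast this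
  obtain ⟨N1, C, hCp, hU⟩ := hUBD m hm K1 hK1R
  have hDg := (hFTB m hm Φ hΦ).1
  obtain ⟨M', hM'0, hM'⟩ := hDg.dec N1
  set C1 : ℝ := C * nU D F * M' with hC1
  have hC10 : 0 ≤ C1 := by positivity
  have hloc : ∀ t : ℝ, 0 < t →
      ‖uu (Pool.Agent.H34.GA.cf Φ) (c2 D H xv F) t‖ ≤ C1 * t ^ K1 := by
    intro t ht
    have h1 := (hU (c2 D H xv F) (Pool.Agent.H34.GA.cf Φ) (nU D F) M' hc2 hM0 hM'0 hDg.cont
      hM' t ht).2
    rw [Real.rpow_natCast] at h1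
    exact h1
  have hth := sma_sum hm hC0 hC10 (by omega) hc hloc
  set S2 : ℝ := ∑' n : ℕ, 1 / (n : ℝ) ^ 2 with hS2
  have hS20 : 0 ≤ S2 := tsum_nonneg fun n => by positivity
  refine ⟨C0 * C1 * S2 * q ^ K1, fun r hr => ?_⟩
  have hr0 : 0 < r := by linarith
  have h1 := hFEA m N0 T D hS H xv hFr F lam hC hn Φ hΦ hAd r hr0
  rw [h1, ← hqd]
  have h2 := hth (q / r) (div_pos hq0 hr0)
  have h3 : q ^ (-((m : ℝ) ^ 2 / 2)) ≤ 1 :=
    Real.rpow_le_one_of_one_le_of_nonpos hq1 (by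
      have : 0 ≤ (m : ℝ) ^ 2 / 2 := by positivity
      linarith)
  have h4 : 0 ≤ q ^ (-((m : ℝ) ^ 2 / 2)) := Real.rpow_nonneg hq0.le _
  have h5 : r ^ (m ^ 2) * (q / r) ^ K1 ≤ q ^ K1 * r ^ (-(N : ℝ)) := by
    rw [div_pow, mul_div_assoc', mul_comm (r ^ m ^ 2), mul_div_assoc]
    apply mul_le_mul_of_nonneg_left _ (by positivity)
    rw [div_eq_mul_inv, ← Real.rpow_natCast r K1, ← Real.rpow_natCast r (m ^ 2),
      ← Real.rpow_neg hr0.le, ← Real.rpow_add hr0]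
    apply Real.rpow_le_rpow_of_exponent_le hr
    rw [hK1]
    push_cast
    nlinarith
  calc r ^ (m ^ 2) * q ^ (-((m : ℝ) ^ 2 / 2)) *
        ‖thA m (uu (Pool.Agent.H34.GA.cf Φ) (c2 D H xv F)) lam (q / r)‖
      ≤ r ^ (m ^ 2) * 1 * (C0 * C1 * S2 * (q / r) ^ K1) :=
        mul_le_mul (mul_le_mul_of_nonneg_left h3 (by positivity)) h2 (norm_nonneg _)
          (by positivity)
    _ = C0 * C1 * S2 * (r ^ (m ^ 2) * (q / r) ^ K1) := by ring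
    _ ≤ C0 * C1 * S2 * (q ^ K1 * r ^ (-(N : ℝ))) :=
        mul_le_mul_of_nonneg_left h5 (by positivity)
    _ = _ := by ring

end Pool.Agent.H69.GA
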