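import Pool.Agent.H34.GA.Targets1

/-!
Row SPB of the board ga: the two halves of the Mellin integral near the critical line.
-/

set_option autoImplicit false

namespace Pool.Agent.H69.GA

open MeasureTheory Set Pool.Agent.H34.GM Pool.Agent.H34.GZ Pool.Agent.H34.GU Pool.Agent.H34.GA

theorem spb_key {κ r : ℝ} (hκ : 0 < κ) (hr : 0 < r) (A D : ℝ) :
    κ / r ^ 2 * ((κ / r) ^ (2 * A) * κ ^ (-A)) * (κ / r) ^ (-A - 1 - D) =
      κ ^ (-D) * r ^ D * r ^ (-A - 1) := by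
  obtain ⟨x, rfl⟩ : ∃ x, κ = Real.exp x := ⟨Real.log κ, (Real.exp_log hκ).symm⟩
  obtain ⟨y, rfl⟩ : ∃ y, r = Real.exp y := ⟨Real.log r, (Real.exp_log hr).symm⟩
  have h2 : Real.exp y ^ 2 = Real.exp (2 * y) := by
    rw [two_mul, Real.exp_add, sq]
  rw [h2]
  simp only [← Real.exp_sub, ← Real.exp_mul, ← Real.exp_add]
  congr 1
  ring

theorem pf_SPB : T_SPB := by
  intro m κ lam ψ ψ' hm hκ _ _ hfe s η hs
  have hκ0 : (0 : ℝ) < κ := by linarith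
  obtain ⟨w, hw⟩ : ∃ w : ℝ, w = Real.sqrt κ := ⟨_, rfl⟩
  have hw0 : 0 < w := by rw [hw]; exact Real.sqrt_pos.2 hκ0
  have hww : w * w = κ := by rw [hw]; exact Real.mul_self_sqrt hκ0.le
  obtain ⟨th, hth⟩ : ∃ th : ℝ → ℂ, th = thA m ψ lam := ⟨_, rfl⟩
  obtain ⟨th', hth'⟩ : ∃ th' : ℝ → ℂ, th' = thA m ψ' lam := ⟨_, rfl⟩
  -- the norm of the integrand
  have hnorm : ∀ r : ℝ, 0 < r → ‖th r * ((r : ℝ) : ℂ) ^ (-((m : ℂ) *
      (s + ((m : ℂ) - 1) / 2)) - 1)‖ =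
      ‖th r‖ * r ^ (-((m : ℝ) ^ 2 / 2) - 1 - m * η) := by
    intro r hr
    rw [norm_mul, Complex.norm_cpow_eq_rpow_re_of_pos hr]
    congr 2
    simp [Complex.add_re, Complex.mul_re, Complex.sub_re]
    rw [hs]
    ring
  have hL : ENNReal.ofReal ‖LmA m ψ lam s‖ ≤ ∫⁻ r in Ioi (0 : ℝ),
      ENNReal.ofReal (‖th r‖ * r ^ (-((m : ℝ) ^ 2 / 2) - 1 - m * η)) := by
    have h1 := enorm_integral_le_lintegral_enorm (μ := volume.restrict (Ioi (0 : ℝ)))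
      (fun r : ℝ => th r * ((r : ℝ) : ℂ) ^ (-((m : ℂ) * (s + ((m : ℂ) - 1) / 2)) - 1))
    have h2 : LmA m ψ lam s = ∫ r in Ioi (0 : ℝ),
        th r * ((r : ℝ) : ℂ) ^ (-((m : ℂ) * (s + ((m : ℂ) - 1) / 2)) - 1) := by
      rw [hth]
      rfl
    rw [h2, ofReal_norm_eq_enorm]
    refine h1.trans (le_of_eq ?_)
    refine setLIntegral_congr_fun measurableSet_Ioi fun r hr => ?_
    show ‖th r * ((r : ℝ) : ℂ) ^ (-((m : ℂ) * (s + ((m : ℂ) - 1) / 2)) - 1)‖ₑ = _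
    rw [← ofReal_norm_eq_enorm, hnorm r hr]
  -- first half
  have hfirst : ∫⁻ r in Ioc (0 : ℝ) w,
      ENNReal.ofReal (‖th r‖ * r ^ (-((m : ℝ) ^ 2 / 2) - 1 - m * η)) =
      ∫⁻ r in Ioc (0 : ℝ) w, ENNReal.ofReal
        (‖th r‖ * r ^ (-((m : ℝ) ^ 2 / 2) - 1 + m * (-η))) := by
    refine setLIntegral_congr_fun measurableSet_Ioc fun r hr => ?_
    have h1 : -((m : ℝ) ^ 2 / 2) - 1 - m * η = -((m : ℝ) ^ 2 / 2) - 1 + m * (-η) := by ring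
    show ENNReal.ofReal (‖th r‖ * r ^ (-((m : ℝ) ^ 2 / 2) - 1 - m * η)) = _
    rw [h1]
  -- change of variables
  have himage : (fun r : ℝ => κ / r) '' Ioo 0 w = Ioi w := by
    ext y
    constructor
    · rintro ⟨r, ⟨hr0, hrw⟩, rfl⟩
      show w < κ / r
      rw [lt_div_iff₀ hr0, ← hww]
      exact mul_lt_mul_of_pos_left hrw hw0
    · intro hy
      have hy' : w < y := hy
      have hy0 : 0 < y := hw0.trans hy'
      refine ⟨κ / y, ⟨by positivity, ?_⟩, ?_⟩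
      · rw [div_lt_iff₀ hy0, ← hww]
        exact mul_lt_mul_of_pos_left hy' hw0
      · show κ / (κ / y) = y
        field_simp
  have hder : ∀ r ∈ Ioo (0 : ℝ) w,
      HasDerivWithinAt (fun r : ℝ => κ / r) (-κ / r ^ 2) (Ioo 0 w) r := by
    intro r hr
    have h1 : HasDerivAt (fun r : ℝ => κ / r) (-κ / r ^ 2) r := by
      have h2 := (hasDerivAt_inv hr.1.ne').const_mul κ
      have e1 : (fun r : ℝ => κ / r) = fun r : ℝ => κ * r⁻¹ := by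
        funext r
        rw [div_eq_mul_inv]
      rw [e1]
      have e2 : -κ / r ^ 2 = κ * -(r ^ 2)⁻¹ := by
        rw [div_eq_mul_inv]
        ring
      rw [e2]
      exact h2
    exact h1.hasDerivWithinAt
  have hinj : InjOn (fun r : ℝ => κ / r) (Ioo 0 w) := by
    intro r hr r' hr' h
    have h' : κ / r = κ / r' := h
    have h1 : r ≠ 0 := hr.1.ne'
    have h2 : r' ≠ 0 := hr'.1.ne'
    rw [div_eq_div_iff h1 h2] at h'
    exact (mul_left_cancel₀ hκ0.ne' h').symm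
  have hchange : ∫⁻ r in Ioi w,
      ENNReal.ofReal (‖th r‖ * r ^ (-((m : ℝ) ^ 2 / 2) - 1 - m * η)) =
      ∫⁻ r in Ioo 0 w, ENNReal.ofReal |(-κ / r ^ 2)| * ENNReal.ofReal
        (‖th (κ / r)‖ * (κ / r) ^ (-((m : ℝ) ^ 2 / 2) - 1 - m * η)) := by
    rw [← himage]
    exact lintegral_image_eq_lintegral_abs_deriv_mul measurableSet_Ioo hder hinj
      (fun r => ENNReal.ofReal (‖th r‖ * r ^ (-((m : ℝ) ^ 2 / 2) - 1 - m * η)))
  have hsecond : ∫⁻ r in Ioi w,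
      ENNReal.ofReal (‖th r‖ * r ^ (-((m : ℝ) ^ 2 / 2) - 1 - m * η)) ≤
      ENNReal.ofReal (κ ^ (-(m * η))) * ∫⁻ r in Ioc (0 : ℝ) w, ENNReal.ofReal
        (‖th' r‖ * r ^ (-((m : ℝ) ^ 2 / 2) - 1 + m * η)) := by
    rw [hchange, ← lintegral_const_mul' _ _ ENNReal.ofReal_ne_top]
    refine le_trans (le_of_eq ?_) (lintegral_mono_set Ioo_subset_Ioc_self)
    refine setLIntegral_congr_fun measurableSet_Ioo fun r hr => ?_
    have hr0 : 0 < r := hr.1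
    have hqr : 0 < κ / r := div_pos hκ0 hr0
    show ENNReal.ofReal |(-κ / r ^ 2)| * ENNReal.ofReal
        (‖th (κ / r)‖ * (κ / r) ^ (-((m : ℝ) ^ 2 / 2) - 1 - m * η)) = _
    rw [← ENNReal.ofReal_mul (abs_nonneg _), ← ENNReal.ofReal_mul (Real.rpow_nonneg hκ0.le _)]
    congr 1
    have e1 : |(-κ / r ^ 2)| = κ / r ^ 2 := by
      rw [neg_div, abs_neg, abs_of_pos (by positivity)]
    have e2 : ‖th (κ / r)‖ =
        ((κ / r) ^ (2 * ((m : ℝ) ^ 2 / 2)) * κ ^ (-((m : ℝ) ^ 2 / 2))) * ‖th' r‖ := by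
      have h1 := hfe (κ / r) hqr
      rw [hth, hth', h1]
      have h2 : κ / (κ / r) = r := by
        field_simp
      have h3 : (κ / r) ^ (2 * ((m : ℝ) ^ 2 / 2)) = (κ / r) ^ (m ^ 2) := by
        rw [← Real.rpow_natCast (κ / r) (m ^ 2)]
        congr 1
        push_cast
        ring
      rw [h2, h3]
    have h3 := spb_key hκ0 hr0 ((m : ℝ) ^ 2 / 2) (m * η)
    have h4 : r ^ (-((m : ℝ) ^ 2 / 2) - 1 + m * η) =
        r ^ (m * η) * r ^ (-((m : ℝ) ^ 2 / 2) - 1) := by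
      rw [← Real.rpow_add hr0]
      congr 1
      ring
    rw [e1, e2, h4]
    calc κ / r ^ 2 * ((κ / r) ^ (2 * ((m : ℝ) ^ 2 / 2)) * κ ^ (-((m : ℝ) ^ 2 / 2)) * ‖th' r‖ *
          (κ / r) ^ (-((m : ℝ) ^ 2 / 2) - 1 - m * η))
        = (κ / r ^ 2 * ((κ / r) ^ (2 * ((m : ℝ) ^ 2 / 2)) * κ ^ (-((m : ℝ) ^ 2 / 2))) *
          (κ / r) ^ (-((m : ℝ) ^ 2 / 2) - 1 - m * η)) * ‖th' r‖ := by ring
      _ = κ ^ (-(m * η)) * (‖th' r‖ * (r ^ (m * η) * r ^ (-((m : ℝ) ^ 2 / 2) - 1))) := by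
        rw [h3]
        ring
  have hsplit : ∫⁻ r in Ioi (0 : ℝ),
      ENNReal.ofReal (‖th r‖ * r ^ (-((m : ℝ) ^ 2 / 2) - 1 - m * η)) =
      (∫⁻ r in Ioc (0 : ℝ) w,
        ENNReal.ofReal (‖th r‖ * r ^ (-((m : ℝ) ^ 2 / 2) - 1 - m * η))) +
      ∫⁻ r in Ioi w, ENNReal.ofReal (‖th r‖ * r ^ (-((m : ℝ) ^ 2 / 2) - 1 - m * η)) := by
    rw [← Ioc_union_Ioi_eq_Ioi hw0.le]
    exact lintegral_union measurableSet_Ioi (Ioc_disjoint_Ioi le_rfl)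
  rw [← hw]
  refine hL.trans ?_
  rw [hsplit, hfirst, ← hth, ← hth']
  exact add_le_add le_rfl hsecond

end Pool.Agent.H69.GA
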