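import Pool.Agent.H34.GA.Targets1

/-!
Row THK of the board ga: the sums are continuous.
-/

set_option autoImplicit false

namespace Pool.Agent.H69.GA

open MeasureTheory Pool.Agent.H34.GM Pool.Agent.H34.GZ Pool.Agent.H34.GU Pool.Agent.H34.GA

theorem pf_THK : T_THK := by
  intro m K ψ lam M ε hm hK hW hlam
  obtain ⟨C, hC⟩ := hlam
  have hmR : (1 : ℝ) ≤ m := by exact_mod_cast hm
  have hC0 : 0 ≤ C := by
    have h1 := (norm_nonneg _).trans (hC 1 le_rfl)
    simpa using h1
  have hM0 : 0 ≤ M := by
    have h1 := (norm_nonneg _).trans (hW.bd0 1 one_pos)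
    rw [one_pow, Real.one_rpow, min_self, mul_one] at h1
    exact h1
  have hψc : ContinuousOn ψ (Set.Ioi 0) := hW.diff.continuousOn
  have hsum : Summable fun n : ℕ => 1 / (n : ℝ) ^ 2 :=
    Real.summable_one_div_nat_pow.mpr (by norm_num)
  intro r0 hr0
  have hr0' : (0 : ℝ) < r0 := hr0
  set R : ℝ := r0 + 1 with hR
  have hR0 : 0 < R := by linarith
  have hco : ContinuousOn (fun r => thA m ψ lam r) (Set.Ioo 0 R) := by
    unfold thA
    refine continuousOn_tsum (u := fun n : ℕ => C * M * R ^ K * (1 / (n : ℝ) ^ 2)) ?_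
      (hsum.mul_left _) ?_
    · intro n
      by_cases hn : 1 ≤ n
      · simp only [hn, if_true]
        have hn0 : (0 : ℝ) < n := by exact_mod_cast hn
        have hz : 0 < (n : ℝ) ^ (-(1 / (m : ℝ))) := Real.rpow_pos_of_pos hn0 _
        refine continuousOn_const.mul ?_
        refine hψc.comp (continuousOn_id.mul continuousOn_const) ?_
        intro r hr
        exact mul_pos hr.1 hz
      · simp only [hn, if_false]
        exact continuousOn_const
    · intro n r hr
      split_ifs with h1
      · have hnR : (1 : ℝ) ≤ n := by exact_mod_cast h1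
        have hn0 : (0 : ℝ) < n := by linarith
        have hz : 0 < (n : ℝ) ^ (-(1 / (m : ℝ))) := Real.rpow_pos_of_pos hn0 _
        have ht0 : 0 < r * (n : ℝ) ^ (-(1 / (m : ℝ))) := mul_pos hr.1 hz
        have h2 : ‖ψ (r * (n : ℝ) ^ (-(1 / (m : ℝ))))‖ ≤
            M * (r * (n : ℝ) ^ (-(1 / (m : ℝ)))) ^ K :=
          (hW.bd0 _ ht0).trans (mul_le_mul_of_nonneg_left (min_le_left _ _) hM0)
        rw [norm_mul]
        calc _ ≤ (C * (n : ℝ) ^ m) * (M * (r * (n : ℝ) ^ (-(1 / (m : ℝ)))) ^ K) :=
              mul_le_mul (hC n h1) h2 (norm_nonneg _) (by positivity)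
          _ = C * M * r ^ K * ((n : ℝ) ^ m * ((n : ℝ) ^ (-(1 / (m : ℝ)))) ^ K) := by
              rw [mul_pow]
              ring
          _ ≤ C * M * R ^ K * (1 / (n : ℝ) ^ 2) := by
              have e2 : (1 : ℝ) / (n : ℝ) ^ 2 = (n : ℝ) ^ (-(2 : ℝ)) := by
                rw [Real.rpow_neg hn0.le, Real.rpow_two, one_div]
              have e3 : (n : ℝ) ^ m * ((n : ℝ) ^ (-(1 / (m : ℝ)))) ^ K =
                  (n : ℝ) ^ ((m : ℝ) + (-(1 / (m : ℝ))) * (K : ℝ)) := by
                rw [Real.rpow_add hn0, Real.rpow_natCast, Real.rpow_mul hn0.le,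
                  Real.rpow_natCast]
              have h3 : (n : ℝ) ^ m * ((n : ℝ) ^ (-(1 / (m : ℝ)))) ^ K ≤ 1 / (n : ℝ) ^ 2 := by
                rw [e2, e3]
                apply Real.rpow_le_rpow_of_exponent_le hnR
                have h5 : ((m : ℝ) + 2) ≤ (1 / (m : ℝ)) * (K : ℝ) := by
                  rw [one_div, inv_mul_eq_div, le_div_iff₀ (by linarith)]
                  have h6 : ((m * (m + 2) : ℕ) : ℝ) ≤ K := by exact_mod_cast hK.le
                  push_cast at h6
                  linarith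
                linarith
              have h4 : r ^ K ≤ R ^ K := pow_le_pow_left₀ hr.1.le hr.2.le K
              have h5 : 0 ≤ (n : ℝ) ^ m * ((n : ℝ) ^ (-(1 / (m : ℝ)))) ^ K := by positivity
              exact mul_le_mul (mul_le_mul_of_nonneg_left h4 (by positivity)) h3 h5
                (by positivity)
      · rw [norm_zero]
        positivity
  have hmem : Set.Ioo 0 R ∈ nhds r0 := Ioo_mem_nhds hr0' (by linarith)
  exact (hco.continuousAt hmem).continuousWithinAt

end Pool.Agent.H69.GA
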